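import Mathlib

/-! Separators and vertex connectivity. -/

namespace Pool.Agent.Lib.MP_038631_co

/-- `S` separates `G`: there are two vertices outside `S` such that every walk between them
meets `S`. -/
def Sepr {V : Type} (G : SimpleGraph V) (S : Finset V) : Prop :=
  ∃ a b : V, a ∉ S ∧ b ∉ S ∧ ∀ w : G.Walk a b, ∃ z ∈ w.support, z ∈ S

/-- The least size of a separating vertex set of `G` is `s`. -/
def Kappa {V : Type} (G : SimpleGraph V) (s : ℕ) : Prop :=
  (∃ S : Finset V, S.card = s ∧ Sepr G S) ∧ ∀ S : Finset V, S.card < s → ¬ Sepr G S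

end Pool.Agent.Lib.MP_038631_co
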