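import Mathlib

/-! Cycles and paths as lists, shortest long cycles, and the greedy packing. -/

namespace Pool.Agent.Lib.MP_038631_co

open List
open scoped Classical

variable {V : Type} {G : SimpleGraph V} {r q : ℕ} {X Y : Finset V}

/-- `l` lists the vertices of a cycle of length at least `r` inside `X`. -/
structure Cy (G : SimpleGraph V) (r : ℕ) (X : Finset V) (l : List V) : Prop where
  nd : l.Nodup
  len : r ≤ l.length
  mem : ∀ z ∈ l, z ∈ X
  ch : ∀ a t, l = a :: t → (a :: t ++ [a]).IsChain G.Adj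

/-- `l` lists the vertices of a path from `x` to `y` with at least `q` vertices inside `X`. -/
structure Pa (G : SimpleGraph V) (q : ℕ) (X : Finset V) (x y : V) (l : List V) : Prop where
  nd : l.Nodup
  len : q ≤ l.length
  mem : ∀ z ∈ l, z ∈ X
  ch : l.IsChain G.Adj
  hd : l.head? = some x
  la : l.getLast? = some y

/-- The number of neighbours of `v` in the list `l`. -/
noncomputable def cnt (G : SimpleGraph V) (v : V) (l : List V) : ℕ :=
  l.countP fun z => decide (G.Adj v z)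

/-- The number of neighbours of `v` in the set `X`. -/
noncomputable def deg (G : SimpleGraph V) (X : Finset V) (v : V) : ℕ := (X.filter (G.Adj v)).card

/-- `j` disjoint long cycles inside `X`. -/
def Pack (G : SimpleGraph V) (r : ℕ) (X : Finset V) (j : ℕ) : Prop :=
  ∃ L : List (List V), L.length = j ∧ (∀ l ∈ L, Cy G r X l) ∧ L.Pairwise List.Disjoint

theorem cnt_le (v : V) (l : List V) : cnt G v l ≤ l.length := countP_le_length

theorem split (v : V) (l : List V) (j : ℕ) (h : j < cnt G v l) : ∃ l1 b l2, l = l1 ++ b :: l2 ∧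
    G.Adj v b ∧ j ≤ l1.length ∧ cnt G v l = j + 1 + cnt G v l2 := by
  induction l generalizing j with
  | nil => simp [cnt] at h
  | cons a t ih =>
    by_cases ha : G.Adj v a
    · have e : cnt G v (a :: t) = cnt G v t + 1 := by simp [cnt, ha]
      rcases j with _ | j
      · exact ⟨[], a, t, rfl, ha, le_rfl, by omega⟩
      · obtain ⟨l1, b, l2, rfl, h1, h2, h3⟩ := ih j (by omega)
        exact ⟨a :: l1, b, l2, rfl, h1, by simpa using h2, by omega⟩
    · have e : cnt G v (a :: t) = cnt G v t := by simp [cnt, ha]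
      obtain ⟨l1, b, l2, rfl, h1, h2, h3⟩ := ih j (by omega)
      exact ⟨a :: l1, b, l2, rfl, h1, by simp only [length_cons]; omega, by omega⟩

theorem deg_le (X : Finset V) (v : V) (l : List V) :
    deg G X v ≤ deg G (X \ l.toFinset) v + cnt G v l := by
  have h1 : X.filter (G.Adj v) ⊆ (X \ l.toFinset).filter (G.Adj v) ∪
      (l.filter fun z => decide (G.Adj v z)).toFinset := fun z hz => by
    by_cases h : z ∈ l <;> simp_all
  refine (Finset.card_le_card h1).trans ((Finset.card_union_le _ _).trans ?_)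
  exact Nat.add_le_add_left ((toFinset_card_le _).trans countP_eq_length_filter.ge) _

theorem exists_min (P : List V → Prop) (f : List V → ℕ) (h : ∃ l, P l) :
    ∃ l, P l ∧ ∀ l', P l' → f l ≤ f l' := by
  obtain ⟨l, h1, h2⟩ := exists_minimalFor_of_wellFoundedLT P f h
  exact ⟨l, h1, fun l' h3 => (le_total _ _).elim id fun h4 => h2 h3 h4⟩

theorem chain_rev {l : List V} (h : l.IsChain G.Adj) : l.reverse.IsChain G.Adj :=
  isChain_reverse.2 (h.imp fun _ _ h => h.symm)

theorem Cy.chain {l : List V} (h : Cy G r X l) : l.IsChain G.Adj := by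
  rcases l with _ | ⟨a, t⟩
  · exact isChain_nil
  · exact (h.ch a t rfl).left_of_append

theorem Cy.mono {l : List V} (h : Cy G r X l) (hX : ∀ z ∈ l, z ∈ Y) : Cy G r Y l :=
  ⟨h.nd, h.len, hX, h.ch⟩

theorem Cy.rot {l1 l2 : List V} (h : Cy G r X (l1 ++ l2)) : Cy G r X (l2 ++ l1) := by
  refine ⟨perm_append_comm.nodup_iff.1 h.nd, by simpa [add_comm] using h.len,
    fun z hz => h.mem z (perm_append_comm.mem_iff.1 hz), ?_⟩
  rcases l1 with _ | ⟨a, t⟩
  · simpa using h.ch
  rcases l2 with _ | ⟨b, u⟩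
  · simpa using h.ch
  rintro _ _ ⟨rfl, rfl⟩
  have h1 := h.ch a (t ++ b :: u) rfl
  have e1 : a :: (t ++ b :: u) ++ [a] = (a :: t) ++ b :: (u ++ [a]) := by simp
  have e2 : b :: (u ++ a :: t) ++ [b] = (b :: u) ++ a :: (t ++ [b]) := by simp
  rw [e1, isChain_split] at h1
  change IsChain G.Adj (b :: (u ++ a :: t) ++ [b])
  rw [e2, isChain_split]
  exact ⟨h1.2, h1.1⟩

theorem Cy.mk' {a b : V} {t : List V} (h1 : (a :: t ++ [b]).Nodup) (h2 : r ≤ t.length + 2)
    (h3 : ∀ z ∈ a :: t ++ [b], z ∈ X) (h4 : (a :: t ++ [b]).IsChain G.Adj) (h5 : G.Adj a b) :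
    Cy G r X (a :: t ++ [b]) := by
  refine ⟨h1, by simpa using h2, h3, ?_⟩
  rintro _ _ ⟨rfl, rfl⟩
  have e : a :: (t ++ [b]) ++ [a] = (a :: t) ++ b :: [a] := by simp
  change IsChain G.Adj (a :: (t ++ [b]) ++ [a])
  rw [e, isChain_split]
  exact ⟨h4, by simpa using h5.symm⟩

/-- A vertex with many neighbours further along a path closes a long cycle. -/
theorem close {a : V} {t : List V} (hr : 2 ≤ r) (h1 : (a :: t).Nodup) (h2 : ∀ z ∈ a :: t, z ∈ X)
    (h3 : (a :: t).IsChain G.Adj) (h4 : r ≤ cnt G a t + 1) :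
    ∃ l, Cy G r X l ∧ l.length + cnt G a t ≤ t.length + r := by
  obtain ⟨l1, b, l2, rfl, h5, h6, h7⟩ := split (G := G) a t (r - 2) (by omega)
  have hs : a :: l1 ++ [b] <+: a :: (l1 ++ b :: l2) := ⟨l2, by simp⟩
  have := cnt_le (G := G) a l2
  refine ⟨_, Cy.mk' (h1.sublist hs.sublist) (by omega) (fun z hz => h2 z (hs.subset hz))
    (IsChain.left_of_append (l₂ := l2) (by simpa using h3)) h5, ?_⟩
  simp only [length_append, length_cons, length_nil]
  omega

theorem exists_cy [Fintype V] (hr : 2 ≤ r) {e : V} (hu : ∃ u ∈ X, u ≠ e)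
    (hd : ∀ v ∈ X, v ≠ e → r ≤ deg G X v + 1) : ∃ l, Cy G r X l := by
  obtain ⟨u, hu, hue⟩ := hu
  obtain ⟨w, hw⟩ := Finset.card_pos.1 (show 0 < deg G X u by have := hd u hu hue; omega)
  rw [Finset.mem_filter] at hw
  have h0 : [u, w].Nodup ∧ (∀ z ∈ [u, w], z ∈ X) ∧ [u, w].IsChain G.Adj := by
    simp [hu, hw.1, hw.2, hw.2.ne]
  obtain ⟨l, hl, hm⟩ := exists_min (fun l => l.Nodup ∧ (∀ z ∈ l, z ∈ X) ∧ l.IsChain G.Adj)
    (fun l => Fintype.card V - l.length) ⟨_, h0⟩
  have key : ∀ a t, (a :: t).length = l.length → a ≠ e → (a :: t).Nodup → (∀ z ∈ a :: t, z ∈ X) →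
      (a :: t).IsChain G.Adj → ∃ l, Cy G r X l := fun a t h1 h2 h3 h4 h5 => by
    have h6 : deg G (X \ t.toFinset) a = 0 := by
      rw [deg, Finset.card_eq_zero, Finset.filter_eq_empty_iff]
      intro z hz hadj
      rw [Finset.mem_sdiff, mem_toFinset] at hz
      have h7 : (z :: a :: t).Nodup := nodup_cons.2 ⟨by simp [hadj.ne', hz.2], h3⟩
      have h8 := hm (z :: a :: t) ⟨h7, forall_mem_cons.2 ⟨hz.1, h4⟩, isChain_cons_cons.2 ⟨hadj.symm, h5⟩⟩
      have h9 := h7.length_le_card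
      simp only [length_cons] at h1 h8 h9
      omega
    have h7 := deg_le (G := G) X a t
    have h8 := hd a (h4 a mem_cons_self) h2
    exact (close hr h3 h4 h5 (by omega)).imp fun _ h => h.1
  have h2 : 2 ≤ l.length := by
    have h1 := hm _ h0
    have h2 := h0.1.length_le_card
    simp only [length_cons, length_nil] at h1 h2
    omega
  obtain ⟨a, t, rfl⟩ := exists_cons_of_length_pos (show 0 < l.length by omega)
  by_cases ha : a = e
  · obtain ⟨b, s, hb⟩ := exists_cons_of_length_pos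
      (show 0 < t.reverse.length by simp only [length_cons, length_reverse] at *; omega)
    have e1 : (a :: t).reverse = b :: (s ++ [a]) := by simp [hb]
    have h3 : b ∈ t := mem_reverse.1 (hb ▸ mem_cons_self)
    exact key b (s ++ [a]) (by rw [← e1, length_reverse])
      (fun h => (nodup_cons.1 hl.1).1 (ha.trans h.symm ▸ h3)) (e1 ▸ nodup_reverse.2 hl.1)
      (fun z hz => hl.2.1 z (mem_reverse.1 (e1 ▸ hz))) (e1 ▸ chain_rev hl.2.2)
  · exact key a t rfl ha hl.1 hl.2.1 hl.2.2

theorem short_out (hr : 3 ≤ r) {l : List V} (h : Cy G r X l)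
    (hm : ∀ l', Cy G r X l' → l.length ≤ l'.length) {v : V} (hv : v ∈ X) (hl : v ∉ l) :
    cnt G v l ≤ r := by
  by_contra hc
  obtain ⟨l1, a, l2, rfl, h1, -, h2⟩ := split (G := G) v l 0 (by omega)
  have hs : a :: l2 <:+ l1 ++ a :: l2 := ⟨l1, rfl⟩
  have e : cnt G v (a :: l2) = cnt G v l2 + 1 := by simp [cnt, h1]
  obtain ⟨l', h3, h4⟩ := close (r := r) (X := X) (a := v) (t := a :: l2) (by omega)
    (nodup_cons.2 ⟨fun h => hl (hs.subset h), h.nd.sublist hs.sublist⟩)
    (forall_mem_cons.2 ⟨hv, fun z hz => h.mem z (hs.subset hz)⟩)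
    (isChain_cons_cons.2 ⟨h1, h.chain.right_of_append⟩) (by omega)
  have := hm l' h3
  simp only [length_append] at this
  omega

theorem greedy [Fintype V] (hr : 3 ≤ r) {e : V} (j : ℕ) (X : Finset V) (hu : ∃ u ∈ X, u ≠ e)
    (hd : ∀ v ∈ X, v ≠ e → r * j ≤ deg G X v + 1) : Pack G r X j := by
  induction j generalizing X with
  | zero => exact ⟨[], rfl, by simp, Pairwise.nil⟩
  | succ j ih =>
    rw [Nat.mul_succ] at hd
    obtain ⟨l0, h0, hm0⟩ := exists_min (Cy G r X) List.length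
      (exists_cy (by omega) hu fun v hv hve => by have := hd v hv hve; omega)
    obtain ⟨a, t, hae, h, hm⟩ : ∃ a t, a ≠ e ∧ Cy G r X (a :: t) ∧
        ∀ l', Cy G r X l' → (a :: t).length ≤ l'.length := by
      have := h0.len
      obtain _ | ⟨a, _ | ⟨b, t⟩⟩ := l0
      · simp at this; omega
      · simp at this; omega
      by_cases ha : a = e
      · exact ⟨b, t ++ [a], fun h => (nodup_cons.1 h0.nd).1 (by simp [ha, h]),
          Cy.rot (l1 := [a]) (l2 := b :: t) h0, by simpa using hm0⟩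
      · exact ⟨a, b :: t, ha, h0, hm0⟩
    rcases Nat.eq_zero_or_pos j with rfl | hj
    · exact ⟨[a :: t], rfl, by simpa using h, pairwise_singleton _ _⟩
    have h1 : cnt G a (a :: t) < r := by
      have e1 : cnt G a (a :: t) = cnt G a t := by simp [cnt]
      by_contra hc
      obtain ⟨l', h3, h4⟩ := close (by omega) h.nd h.mem h.chain (show r ≤ _ by omega)
      have := hm l' h3
      simp only [length_cons] at this
      omega
    have h2 := deg_le (G := G) X a (a :: t)
    have h3 := hd a (h.mem a mem_cons_self) hae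
    have h4 : r ≤ r * j := Nat.le_mul_of_pos_right r hj
    obtain ⟨u, hu, hue⟩ := Finset.exists_mem_ne
      (show 1 < deg G (X \ (a :: t).toFinset) a by omega) e
    obtain ⟨L, h5, h6, h7⟩ := ih (X \ (a :: t).toFinset) ⟨u, (Finset.mem_filter.1 hu).1, hue⟩
      fun v hv hve => by
        rw [Finset.mem_sdiff, mem_toFinset] at hv
        have := short_out hr h hm hv.1 hv.2
        have := deg_le (G := G) X v (a :: t)
        have := hd v hv.1 hve
        omega
    refine ⟨(a :: t) :: L, by simp [h5], forall_mem_cons.2 ⟨h, fun l hl => (h6 l hl).mono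
      fun z hz => (Finset.mem_sdiff.1 ((h6 l hl).mem z hz)).1⟩, pairwise_cons.2 ⟨fun l hl z h8 h9 =>
        (Finset.mem_sdiff.1 ((h6 l hl).mem z h9)).2 (mem_toFinset.2 h8), h7⟩⟩

theorem Pack.union {i j : ℕ} (h : Pack G r X i) (h' : Pack G r Y j) (hd : Disjoint X Y) :
    Pack G r (X ∪ Y) (i + j) := by
  obtain ⟨L, h1, h2, h3⟩ := h
  obtain ⟨M, h4, h5, h6⟩ := h'
  refine ⟨L ++ M, by simp [h1, h4], fun l hl => ?_, pairwise_append.2 ⟨h3, h6,
    fun l hl m hm z h7 h8 => Finset.disjoint_left.1 hd ((h2 l hl).mem z h7) ((h5 m hm).mem z h8)⟩⟩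
  rcases mem_append.1 hl with h7 | h7
  · exact (h2 l h7).mono fun z hz => Finset.mem_union_left _ ((h2 l h7).mem z hz)
  · exact (h5 l h7).mono fun z hz => Finset.mem_union_right _ ((h5 l h7).mem z hz)

theorem walk_of_chain (a b : V) (t : List V) (h : (a :: t ++ [b]).IsChain G.Adj) :
    ∃ w : G.Walk a b, w.support = a :: t ++ [b] := by
  induction t generalizing a with
  | nil => exact ⟨.cons (isChain_cons_cons.1 h).1 .nil, rfl⟩
  | cons c t ih =>
    obtain ⟨w, hw⟩ := ih c (isChain_cons_cons.1 h).2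
    exact ⟨.cons (isChain_cons_cons.1 h).1 w, by simp [hw]⟩

theorem Cy.walk (hr : 3 ≤ r) {l : List V} (h : Cy G r X l) :
    ∃ (u : V) (c : G.Walk u u), (c.IsCycle ∧ r ≤ c.length) ∧ ∀ z ∈ c.support, z ∈ l := by
  have h1 := h.len
  obtain ⟨a, t, rfl⟩ := exists_cons_of_length_pos (show 0 < l.length by omega)
  obtain ⟨w, hw⟩ := walk_of_chain a a t (h.ch a t rfl)
  have h2 := w.length_support
  rw [hw] at h2
  simp only [length_append, length_cons, length_nil] at h1 h2
  refine ⟨a, w, ⟨SimpleGraph.Walk.isCycle_iff_isPath_tail_and_le_length.2 ⟨?_, by omega⟩, by omega⟩,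
    fun z hz => by simpa [hw, or_comm] using hz⟩
  rw [SimpleGraph.Walk.isPath_def, w.support_tail_of_not_nil
    (SimpleGraph.Walk.not_nil_iff_lt_length.2 (by omega)), hw]
  exact (perm_append_comm (l₁ := [a]) (l₂ := t)).nodup_iff.1 h.nd

theorem Pack.walks (hr : 3 ≤ r) {k : ℕ} (h : Pack G r X k) :
    ∃ (u : Fin k → V) (c : ∀ i : Fin k, G.Walk (u i) (u i)),
      (∀ i : Fin k, (c i).IsCycle ∧ r ≤ (c i).length) ∧
      ∀ i j : Fin k, i ≠ j → ∀ z ∈ (c i).support, z ∉ (c j).support := by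
  obtain ⟨L, rfl, h1, h2⟩ := h
  choose u c h3 h4 using fun i : Fin L.length => (h1 _ (get_mem L i)).walk hr
  refine ⟨u, c, h3, fun i j hij z hi hj => ?_⟩
  rcases lt_or_gt_of_ne hij with h5 | h5
  · exact pairwise_iff_get.1 h2 i j h5 (h4 i z hi) (h4 j z hj)
  · exact pairwise_iff_get.1 h2 j i h5 (h4 j z hj) (h4 i z hi)

end Pool.Agent.Lib.MP_038631_co
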