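import Pool.Agent.Lib.MP_038631_co.Side
import Pool.Agent.Results.MP_038631_co.ConnectedFamily

/-! Graphs of small connectivity: the packing and the two exceptional families. -/

namespace Pool.Agent.Lib.MP_038631_co

open List Pool.Agent.Lib.Common.Pl Pool.Agent.Results.MP_038631_co.ConnectedFamily
open scoped Classical

variable {V : Type} {G : SimpleGraph V} {r q : ℕ} {x y : V}

theorem cross {A B : Finset V} (hAB : Disjoint A B) (hx : x ∉ B) (hy : y ∉ B) {l1 l2 : List V}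
    (h1 : Pa G q (A ∪ {x, y}) x y l1) (h2 : Pa G q (B ∪ {y, x}) y x l2) (hq : 2 ≤ q)
    (hr : r + 2 ≤ 2 * q) : Pack G r (l1.toFinset ∪ l2.toFinset) 1 ∧
      Disjoint (l1.toFinset ∪ l2.toFinset) (A \ l1.toFinset ∪ B \ l2.toFinset) := by
  have m1 := mem_of_mem_head? h1.hd
  have m2 := mem_of_mem_getLast? h1.la
  have m3 : ∀ z ∈ l1, z ∉ B := fun z hz hB => by
    rcases Finset.mem_union.1 (h1.mem z hz) with h | h
    · exact Finset.disjoint_left.1 hAB h hB
    · rcases Finset.mem_insert.1 h with h | h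
      · exact hx (h ▸ hB)
      · exact hy (Finset.mem_singleton.1 h ▸ hB)
  have m4 : ∀ z ∈ l2, z ∈ B ∨ z = y ∨ z = x := fun z hz => by
    have := h2.mem z hz
    rwa [Finset.mem_union, Finset.mem_insert, Finset.mem_singleton] at this
  refine ⟨?_, Finset.disjoint_left.2 fun z h3 h4 => ?_⟩
  · have e1 := h1.len
    have e2 := h2.len
    obtain ⟨t, rfl⟩ : ∃ t, l2 = y :: t := head?_eq_some_iff.1 h2.hd
    obtain ⟨u, rfl⟩ : ∃ u, t = u ++ [x] := getLast?_eq_some_iff.1 (by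
      rcases t with _ | ⟨c, t⟩
      · simp at e2; omega
      · simpa using h2.la)
    obtain ⟨s, e3⟩ : ∃ s, l1 = s ++ [y] := getLast?_eq_some_iff.1 h1.la
    obtain ⟨s', e4⟩ : ∃ s', l1 = x :: s' := head?_eq_some_iff.1 h1.hd
    have n1 := h2.nd
    rw [nodup_cons, nodup_append'] at n1
    refine ⟨[l1 ++ u], rfl, forall_mem_singleton.2 ⟨nodup_append'.2 ⟨h1.nd, n1.2.1, fun z h3 h4 => ?_⟩,
      by simp only [length_append, length_cons, length_nil] at *; omega, fun z hz => ?_,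
      fun a t e => ?_⟩, pairwise_singleton _ _⟩
    · rcases m4 z (by simp [h4]) with h | h | h
      · exact m3 z h3 h
      · exact n1.1 (mem_append_left _ (h ▸ h4))
      · exact n1.2.2.2 h4 (h ▸ mem_singleton_self _)
    · rcases mem_append.1 hz with h | h <;> simp [h]
    · have e5 : a = x := by
        rw [e4] at e
        exact (cons.inj e).1.symm
      have e6 : a :: t ++ [a] = s ++ y :: (u ++ [x]) := by rw [← e, e5, e3]; simp
      rw [e6, isChain_split]
      exact ⟨e3 ▸ h1.ch, h2.ch⟩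
  · simp only [Finset.mem_union, Finset.mem_sdiff, mem_toFinset] at h3 h4
    rcases h3 with h3 | h3 <;> rcases h4 with h4 | h4
    · exact h4.2 h3
    · exact m3 z h3 h4.1
    · rcases m4 z h3 with h | h | h
      · exact Finset.disjoint_left.1 hAB h4.1 h
      · exact h4.2 (h ▸ m2)
      · exact h4.2 (h ▸ m1)
    · exact h4.2 h3

theorem pos [Fintype V] {k s : ℕ} (hk : 2 ≤ k) (hr : 3 ≤ r) (ho : Odd r) (hs : 2 * s ≤ k + 3)
    (hκ : Kappa G s) (hD : ∀ v, (r + 1) * k ≤ 2 * deg G Finset.univ v)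
    (hno : ¬ (s ≤ 1 ∧ Odd k ∧ k + 4 ≤ r)) : ∃ X, Pack G r X k := by
  obtain ⟨⟨S, rfl, a, b, haS, hbS, hab⟩, hmin⟩ := hκ
  obtain ⟨A, mA⟩ : ∃ A : Finset V, ∀ v, v ∈ A ↔ RIn G {z | z ∉ S} a v :=
    ⟨Finset.univ.filter fun v => RIn G {z | z ∉ S} a v, fun v => by simp⟩
  obtain ⟨B, mB⟩ : ∃ B : Finset V, ∀ v, v ∈ B ↔ v ∉ S ∧ v ∉ A :=
    ⟨Finset.univ.filter fun v => v ∉ S ∧ v ∉ A, fun v => by simp⟩
  have ha : a ∈ A := (mA a).2 (RIn.refl haS)
  have hbA : b ∉ A := fun h => by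
    obtain ⟨w, hw⟩ := (mA b).1 h
    obtain ⟨z, h1, h2⟩ := hab w
    exact hw z h1 h2
  have hb : b ∈ B := (mB b).2 ⟨hbS, hbA⟩
  have haB : a ∉ B := fun h => ((mB a).1 h).2 ha
  have hA : ∀ v ∈ A, ∀ z, G.Adj v z → z ∈ A ∨ z ∈ S := fun v hv z hz =>
    or_iff_not_imp_right.2 fun h => (mA z).2 (((mA v).1 hv).tail hz h)
  have hB : ∀ v ∈ B, ∀ z, G.Adj v z → z ∈ B ∨ z ∈ S := fun v hv z hz =>
    or_iff_not_imp_right.2 fun h => (mB z).2 ⟨h, fun h' =>
      (hA z h' v hz.symm).elim ((mB v).1 hv).2 ((mB v).1 hv).1⟩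
  have hAS : Disjoint A S := Finset.disjoint_left.2 fun v hv => ((mA v).1 hv).right_mem
  have hBS : Disjoint B S := Finset.disjoint_left.2 fun v hv => ((mB v).1 hv).1
  have hAB : Disjoint A B := Finset.disjoint_left.2 fun v hv h => ((mB v).1 h).2 hv
  have hne : a ≠ b := fun h => hbA (h ▸ ha)
  obtain ⟨d, rfl⟩ := ho
  rcases Nat.even_or_odd' k with ⟨m, rfl | rfl⟩
  · have e : (2 * d + 1 + 1) * (2 * m) = 2 * ((2 * d + 1) * m + m) := by ring
    rw [two_mul m]
    exact ⟨_, (greedy (e := b) hr m A ⟨a, ha, hne⟩ fun v hv _ => by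
      have := deg_ge (hA v hv); have := hD v; omega).union
      (greedy (e := a) hr m B ⟨b, hb, hne.symm⟩ fun v hv _ => by
        have := deg_ge (hB v hv); have := hD v; omega) hAB⟩
  have e : (2 * d + 1 + 1) * (2 * m + 1) = 2 * ((2 * d + 1) * m + d + m + 1) := by ring
  have hD' : ∀ v, (2 * d + 1) * m + d + m + 1 ≤ deg G Finset.univ v := fun v => by
    have := hD v; omega
  rcases le_or_gt S.card 1 with h1 | h1
  · have h2 : d ≤ m + 1 := by
      by_contra hc
      exact hno ⟨h1, ⟨m, rfl⟩, by omega⟩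
    obtain ⟨e, he, heS⟩ : ∃ e, a ≠ e ∧ ∀ z ∈ S, z = e := by
      rcases S.eq_empty_or_nonempty with rfl | ⟨e, he⟩
      · exact ⟨b, hne, by simp⟩
      · exact ⟨e, fun h => haS (h ▸ he), fun z hz => Finset.card_le_one.1 h1 z hz e he⟩
    rw [show 2 * m + 1 = m + 1 + m by ring]
    refine ⟨_, (greedy (e := e) hr (m + 1) (A ∪ S) ⟨a, Finset.mem_union_left _ ha, he⟩
      fun v hv hve => ?_).union (greedy (e := a) hr m B ⟨b, hb, hne.symm⟩ fun v hv _ => by
        have := deg_ge (hB v hv); have := hD' v; omega)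
      (Finset.disjoint_union_left.2 ⟨hAB, hBS.symm⟩)⟩
    have h3 : v ∈ A := (Finset.mem_union.1 hv).resolve_right fun h => hve (heS v h)
    have h4 : deg G Finset.univ v ≤ deg G (A ∪ S) v + (∅ : Finset V).card :=
      deg_ge fun z hz => Or.inl (Finset.mem_union.2 (hA v h3 z hz))
    have := hD' v
    rw [Nat.mul_succ]
    simp only [Finset.card_empty] at h4
    omega
  · obtain ⟨x, hx, y, hy, hxy⟩ := Finset.one_lt_card.1 h1
    obtain ⟨l1, h2, h3⟩ := side hA hAS ha hbA hbS hx hy hxy hmin (d := d) (m := m) (by omega)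
      (by omega) (by omega) hD'
    obtain ⟨l2, h4, h5⟩ := side hB hBS hb haB haS hy hx hxy.symm hmin (d := d) (m := m) (by omega)
      (by omega) (by omega) hD'
    obtain ⟨h6, h7⟩ := cross (r := 2 * d + 1) hAB (Finset.disjoint_right.1 hBS hx)
      (Finset.disjoint_right.1 hBS hy) h2 h4 (by omega) (by omega)
    rw [show 2 * m + 1 = 1 + (m + m) by ring]
    exact ⟨_, h6.union (h3.union h5 (hAB.mono Finset.sdiff_subset Finset.sdiff_subset)) h7⟩

theorem deg_eq [Fintype V] (v : V) : (G.neighborSet v).ncard = deg G Finset.univ v := by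
  rw [deg, ← Set.ncard_coe_finset]
  congr 1
  ext z
  simp

theorem no_pack {m : ℕ} (B1 B2 : Finset V) (h1 : B1.card < (m + 1) * r) (h2 : B2.card < (m + 1) * r)
    (h : ∀ u (c : G.Walk u u), c.IsCycle → (∀ z ∈ c.support, z ∈ B1) ∨ ∀ z ∈ c.support, z ∈ B2) :
    ¬ ∃ (u : Fin (2 * m + 1) → V) (c : ∀ i, G.Walk (u i) (u i)),
      (∀ i, (c i).IsCycle ∧ r ≤ (c i).length) ∧
      ∀ i j, i ≠ j → ∀ z ∈ (c i).support, z ∉ (c j).support := by
  rintro ⟨u, c, hc, hd⟩
  let P : Fin (2 * m + 1) → Prop := fun i => ∀ z ∈ (c i).support, z ∈ B1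
  have h3 := count_le u c hc hd (Finset.univ.filter P) B1 fun i hi => (Finset.mem_filter.1 hi).2
  have h4 := count_le u c hc hd (Finset.univ.filter fun i => ¬ P i) B2
    fun i hi => (h _ _ (hc i).1).resolve_left (Finset.mem_filter.1 hi).2
  have h5 := Finset.card_filter_add_card_filter_not (s := Finset.univ) P
  rw [Finset.card_univ, Fintype.card_fin] at h5
  rcases le_or_gt (m + 1) (Finset.univ.filter P).card with h6 | h6
  · have := Nat.mul_le_mul_right r h6
    omega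
  · have := Nat.mul_le_mul_right r
      (show m + 1 ≤ (Finset.univ.filter fun i => ¬ P i).card by omega)
    omega

theorem clique_deg [Fintype V] {B : Finset V} {v : V} (hv : v ∈ B)
    (h : ∀ z ∈ B, z ≠ v → G.Adj v z) : B.card ≤ (G.neighborSet v).ncard + 1 := by
  have h1 : B.erase v ⊆ Finset.univ.filter (G.Adj v) := fun z hz =>
    Finset.mem_filter.2 ⟨Finset.mem_univ _, h z (Finset.mem_erase.1 hz).2 (Finset.mem_erase.1 hz).1⟩
  have h2 := Finset.card_le_card h1
  rw [Finset.card_erase_of_mem hv] at h2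
  rw [deg_eq, deg]
  omega

/-- Two disjoint cliques, on the vertices `< p` and on the vertices `≥ p`. -/
def apart {n : ℕ} (p : Fin n) : SimpleGraph (Fin n) where
  Adj x y := x ≠ y ∧ (x < p ↔ y < p)
  symm := ⟨fun _ _ h => ⟨h.1.symm, h.2.symm⟩⟩
  loopless := ⟨fun _ h => h.1 rfl⟩

theorem apart_side {n : ℕ} {p x y : Fin n} (w : (apart p).Walk x y) :
    ∀ z ∈ w.support, (x < p ↔ z < p) := by
  induction w with
  | nil => simp
  | cons h _ ih => exact forall_mem_cons.2 ⟨Iff.rfl, fun z hz => h.2.trans (ih z hz)⟩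

theorem neg {k s : ℕ} (hk : 2 ≤ k) (ho : Odd r) (hs : s ≤ 1) (hko : Odd k) (hr : k + 4 ≤ r) :
    ∃ (n : ℕ) (G : SimpleGraph (Fin n)), Kappa G s ∧ r * k ≤ n ∧
      (∀ v : Fin n, (r + 1) * k ≤ 2 * (G.neighborSet v).ncard) ∧
      ¬ ∃ (u : Fin k → Fin n) (c : ∀ i : Fin k, G.Walk (u i) (u i)),
        (∀ i : Fin k, (c i).IsCycle ∧ r ≤ (c i).length) ∧
        ∀ i j : Fin k, i ≠ j → ∀ z ∈ (c i).support, z ∉ (c j).support := by
  obtain ⟨m, rfl⟩ := hko
  obtain ⟨d, rfl⟩ := ho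
  obtain ⟨D, hD⟩ : ∃ D, D = (2 * d + 1) * m + d + m + 1 := ⟨_, rfl⟩
  have e1 : (2 * d + 1 + 1) * (2 * m + 1) = 2 * D := by rw [hD]; ring
  have e2 : (2 * d + 1) * (2 * m + 1) + (2 * m + 1) = 2 * D := by rw [hD]; ring
  have e3 : (m + 1) * (2 * d + 1) = (2 * d + 1) * m + (2 * d + 1) := by ring
  rcases Nat.le_one_iff_eq_zero_or_eq_one.1 hs with rfl | rfl
  · let p : Fin (2 * D + 2) := ⟨D + 1, by omega⟩
    have hp : (p : ℕ) = D + 1 := rfl
    have c1 : (Finset.Iio p).card = D + 1 := by rw [Fin.card_Iio]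
    have c2 : (Finset.Ici p).card = D + 1 := by rw [Fin.card_Ici]; omega
    refine ⟨2 * D + 2, apart p, ⟨⟨∅, rfl, 0, p, by simp, by simp, fun w => ?_⟩, by simp⟩, by omega,
      fun v => ?_, no_pack (Finset.Iio p) (Finset.Ici p) (by omega) (by omega) fun u c _ => ?_⟩
    · exact absurd ((apart_side w p w.end_mem_support).1 (by rw [Fin.lt_def, hp]; simp)) (lt_irrefl p)
    · rcases lt_or_ge v p with hv | hv
      · have := clique_deg (G := apart p) (Finset.mem_Iio.2 hv) fun z hz h =>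
          ⟨h.symm, iff_of_true hv (Finset.mem_Iio.1 hz)⟩
        omega
      · have := clique_deg (G := apart p) (Finset.mem_Ici.2 hv) fun z hz h =>
          ⟨h.symm, iff_of_false hv.not_gt (Finset.mem_Ici.1 hz).not_gt⟩
        omega
    · exact (lt_or_ge u p).imp (fun h z hz => Finset.mem_Iio.2 ((apart_side c z hz).1 h))
        fun h z hz => Finset.mem_Ici.2 (not_lt.1 fun h' => h.not_gt ((apart_side c z hz).2 h'))
  · let p : Fin (2 * D + 1) := ⟨D, by omega⟩
    have hp : (p : ℕ) = D := rfl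
    have c1 : (Finset.Iic p).card = D + 1 := by rw [Fin.card_Iic]
    have c2 : (Finset.Ici p).card = D + 1 := by rw [Fin.card_Ici]; omega
    have hre : ∀ w, (twoCl p).Reachable p w := fun w => by
      by_cases e : p = w
      · exact e ▸ SimpleGraph.Reachable.refl _
      · exact SimpleGraph.Adj.reachable
          ⟨e, (le_total w p).imp (fun h => ⟨le_rfl, h⟩) fun h => ⟨le_rfl, h⟩⟩
    refine ⟨2 * D + 1, twoCl p, ⟨⟨{p}, rfl, 0, Fin.last _, ?_, ?_, fun w => ⟨p, ?_, by simp⟩⟩,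
      fun S hS ⟨a, b, _, _, h⟩ => ?_⟩, by omega, fun v => ?_,
      no_pack (Finset.Iic p) (Finset.Ici p) (by omega) (by omega) fun u c hc =>
        (cycle_side c hc).imp (fun h z hz => Finset.mem_Iic.2 (h z hz))
          fun h z hz => Finset.mem_Ici.2 (h z hz)⟩
    · rw [Finset.mem_singleton, Fin.ext_iff, hp]
      simp only [Fin.val_zero]
      omega
    · rw [Finset.mem_singleton, Fin.ext_iff, hp, Fin.val_last]
      omega
    · by_contra hc
      have := (Pool.Agent.Results.MP_038631_co.ConnectedFamily.side w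
        fun h => hc (mem_of_mem_dropLast h)).1 (Fin.zero_le _) _ w.end_mem_support
      rw [Fin.le_def, hp, Fin.val_last] at this
      omega
    · obtain ⟨w⟩ := (hre a).symm.trans (hre b)
      obtain ⟨z, -, hz⟩ := h w
      have := Finset.card_pos.2 ⟨z, hz⟩
      omega
    · rcases le_total v p with hv | hv
      · have := clique_deg (G := twoCl p) (Finset.mem_Iic.2 hv) fun z hz h =>
          ⟨h.symm, Or.inl ⟨hv, Finset.mem_Iic.1 hz⟩⟩
        omega
      · have := clique_deg (G := twoCl p) (Finset.mem_Ici.2 hv) fun z hz h =>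
          ⟨h.symm, Or.inr ⟨hv, Finset.mem_Ici.1 hz⟩⟩
        omega

end Pool.Agent.Lib.MP_038631_co
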