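import Pool.Agent.Lib.MP_038631_co.Lists
import Pool.Agent.Lib.MP_038631_co.Defs
import Pool.Agent.Lib.Common.Planar.Menger

/-! Long paths through one side of a minimum separator. -/

namespace Pool.Agent.Lib.MP_038631_co

open List Pool.Agent.Lib.Common.Pl
open scoped Classical

variable {V : Type} {G : SimpleGraph V} {r q : ℕ} {X Y : Finset V} {x y : V}

theorem Pa.rev {l : List V} (h : Pa G q X x y l) : Pa G q X y x l.reverse :=
  ⟨nodup_reverse.2 h.nd, by simpa using h.len, fun z hz => h.mem z (mem_reverse.1 hz),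
    chain_rev h.ch, by simpa using h.la, by simpa using h.hd⟩

theorem path_out (hq : 3 ≤ q) {l : List V} (h : Pa G q X x y l)
    (hm : ∀ l', Pa G q X x y l' → l.length ≤ l'.length) {v : V} (hv : v ∈ X) (hl : v ∉ l) :
    cnt G v l ≤ q := by
  by_contra hc
  obtain ⟨l1, a, l2, rfl, h1, -, h2⟩ := split (G := G) v l 0 (by omega)
  obtain ⟨l3, b, l4, rfl, h3, h4, h5⟩ := split (G := G) v l2 2 (by omega)
  have h6 := cnt_le (G := G) v l4
  have hs : l1 ++ a :: b :: l4 <+ l1 ++ a :: (l3 ++ b :: l4) :=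
    ((sublist_append_right l3 _).cons_cons a).append_left l1
  have hp : l1 ++ a :: v :: b :: l4 ~ v :: (l1 ++ a :: b :: l4) :=
    ((Perm.swap v a _).append_left l1).trans perm_middle
  have h7 := isChain_split.1 h.ch
  have h8 : (b :: l4).IsChain G.Adj := (IsChain.right_of_append (l₁ := a :: l3) h7.2)
  have := hm (l1 ++ a :: v :: b :: l4) ⟨hp.nodup_iff.2 (nodup_cons.2
      ⟨fun h => hl (hs.subset h), h.nd.sublist hs⟩),
    by simp only [length_append, length_cons]; omega,
    fun z hz => (mem_cons.1 (hp.mem_iff.1 hz)).elim (fun e => e ▸ hv) fun e => h.mem z (hs.subset e),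
    isChain_split.2 ⟨h7.1, isChain_cons_cons.2 ⟨h1.symm, isChain_cons_cons.2 ⟨h3, h8⟩⟩⟩,
    by simpa using h.hd, by simpa [getLast?_append, getLast?_cons] using h.la⟩
  simp only [length_append, length_cons] at this
  omega

theorem path_snd (hq : 3 ≤ q) {u : V} {t : List V} (h : Pa G q X x y (x :: u :: t))
    (hm : ∀ l', Pa G q X x y l' → (x :: u :: t).length ≤ l'.length) :
    cnt G u (x :: u :: t) < q := by
  by_contra hc
  have e : cnt G u (x :: u :: t) ≤ cnt G u t + 1 := by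
    simp only [cnt, countP_cons]
    split_ifs <;> simp_all
  obtain ⟨l1, b, l2, rfl, h1, h2, h3⟩ := split (G := G) u t 1 (by omega)
  have h4 := cnt_le (G := G) u l2
  have hs : x :: u :: b :: l2 <+ x :: u :: (l1 ++ b :: l2) :=
    ((sublist_append_right l1 _).cons_cons u).cons_cons x
  have := hm (x :: u :: b :: l2) ⟨h.nd.sublist hs, by simp only [length_cons]; omega,
    fun z hz => h.mem z (hs.subset hz), isChain_cons_cons.2 ⟨(isChain_cons_cons.1 h.ch).1,
      isChain_cons_cons.2 ⟨h1, IsChain.right_of_append (l₁ := x :: u :: l1) h.ch⟩⟩, rfl,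
    by simpa [getLast?_append, getLast?_cons] using h.la⟩
  simp only [length_append, length_cons] at this
  omega

theorem Pa.join {a b c d : V} {l1 l2 u : List V} (h1 : Pa G 2 X a c l1) (h2 : Pa G 2 X d b l2)
    (hu : (c :: u ++ [d]).IsChain G.Adj) (hn : u.Nodup) (hX : ∀ z ∈ u, z ∈ X)
    (d1 : List.Disjoint l1 u) (d2 : List.Disjoint u l2) (d3 : List.Disjoint l1 l2)
    (hq : q ≤ u.length + 4) : Pa G q X a b (l1 ++ (u ++ l2)) := by
  have e1 := h1.len
  have e2 := h2.len
  obtain ⟨s, rfl⟩ : ∃ s, l1 = s ++ [c] := getLast?_eq_some_iff.1 h1.la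
  obtain ⟨t, rfl⟩ : ∃ t, l2 = d :: t := head?_eq_some_iff.1 h2.hd
  refine ⟨nodup_append'.2 ⟨h1.nd, nodup_append'.2 ⟨hn, h2.nd, d2⟩, disjoint_append_right.2 ⟨d1, d3⟩⟩,
    by simp only [length_append] at *; omega, fun z hz => ?_, ?_, ?_, ?_⟩
  · rcases mem_append.1 hz with h | h
    · exact h1.mem z h
    · exact (mem_append.1 h).elim (hX z) (h2.mem z)
  · have e : s ++ [c] ++ (u ++ d :: t) = s ++ c :: (u ++ d :: t) := by simp
    rw [e, isChain_split]
    exact ⟨h1.ch, (isChain_split (l₁ := c :: u)).2 ⟨hu, h2.ch⟩⟩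
  · rw [head?_append, h1.hd]
    rfl
  · rw [getLast?_append, getLast?_append, h2.la]
    rfl

theorem res_pa {a b : V} (w : (res G (X : Set V)).Walk a b) (hw : w.IsPath) (hab : a ≠ b)
    (ha : a ∈ X) : Pa G 2 X a b w.support := by
  refine ⟨hw.support_nodup, ?_, ?_, w.isChain_adj_support.imp fun _ _ h => h.1, ?_, ?_⟩
  · cases w with
    | nil => exact absurd rfl hab
    | cons h p => simp [p.length_support]
  · clear hw hab
    induction w with
    | nil => simpa using ha
    | cons h p ih => exact forall_mem_cons.2 ⟨ha, ih h.2.2⟩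
  · cases w <;> rfl
  · rw [getLast?_eq_some_getLast w.support_ne_nil, w.getLast_support]

theorem long_path [Fintype V] {A S : Finset V} (hA : ∀ v ∈ A, ∀ z, G.Adj v z → z ∈ A ∨ z ∈ S)
    (hAS : Disjoint A S) {b : V} (hb : b ∉ A) (hbS : b ∉ S) (hx : x ∈ S) (hy : y ∈ S) (hxy : x ≠ y)
    (hS : ∀ T : Finset V, T.card < S.card → ¬ Sepr G T) {C : List V} (hC : Cy G r A C)
    (hr : 3 ≤ r) (hq : 2 * q ≤ r + 6) : ∃ l, Pa G q (A ∪ {x, y}) x y l := by
  have hxA : ∀ z ∈ ({x, y} : Set V), z ∉ C := fun z hz h => by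
    rcases hz with rfl | rfl
    · exact Finset.disjoint_left.1 hAS (hC.mem _ h) hx
    · exact Finset.disjoint_left.1 hAS (hC.mem _ h) hy
  rcases menger (res G ((A ∪ {x, y} : Finset V) : Set V)) {x, y} {z | z ∈ C} 2 with
    ⟨⟨P⟩⟩ | ⟨T, hT, hsep⟩
  · have hP : ∀ i, Pa G 2 (A ∪ {x, y}) (P.s i) (P.t i) (P.p i).support := fun i =>
      res_pa _ (P.isPath i) (fun h => hxA _ (P.s_mem i) (h ▸ P.t_mem i))
        (Finset.mem_union_right _ (by simpa using P.s_mem i))
    have key : ∀ i j, i ≠ j → ∀ u w, Cy G r A (P.t i :: u ++ P.t j :: w) →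
        (∀ z ∈ P.t i :: u ++ P.t j :: w, z ∈ C) → w.length ≤ u.length →
        ∃ l, Pa G q (A ∪ {x, y}) (P.s i) (P.s j) l := fun i j hij u w h1 h2 h3 => by
      have h4 := h1.len
      have h5 := h1.nd
      have h6 : ∀ z ∈ u, z ∈ C := fun z hz => h2 z (by simp [hz])
      simp only [length_append, length_cons] at h4
      rw [nodup_append', nodup_cons] at h5
      refine ⟨_, (hP i).join (hP j).rev (isChain_split.1 h1.chain).1 h5.1.2
        (fun z hz => Finset.mem_union_left _ (hC.mem z (h6 z hz))) (fun z h7 h8 => ?_)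
        (fun z h7 h8 => ?_) (fun z h7 h8 => P.disj i j hij z h7 (mem_reverse.1 h8)) (by omega)⟩
      · exact h5.1.1 ((P.memB i z h7).1 (h6 z h8) ▸ h8)
      · exact h5.2.2 (mem_cons_of_mem _ h7)
          ((P.memB j z (mem_reverse.1 h8)).1 (h6 z h7) ▸ mem_cons_self)
    have h01 : (0 : Fin 2) ≠ 1 := by decide
    have h1 : ∃ l, Pa G q (A ∪ {x, y}) (P.s 0) (P.s 1) l := by
      obtain ⟨l1, l2, e1⟩ := append_of_mem (show P.t 0 ∈ C from P.t_mem 0)
      have h2 : Cy G r A (P.t 0 :: l2 ++ l1) := (e1 ▸ hC : Cy G r A (l1 ++ P.t 0 :: l2)).rot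
      have h3 : ∀ z, z ∈ P.t 0 :: l2 ++ l1 ↔ z ∈ C := fun z =>
        perm_append_comm.mem_iff.trans (iff_of_eq (congrArg (z ∈ ·) e1.symm))
      have h4 : P.t 1 ∈ l2 ++ l1 := (mem_cons.1 ((h3 _).2 (P.t_mem 1))).resolve_left
        fun h => h01 (P.t_inj h).symm
      obtain ⟨u, w, e2⟩ := append_of_mem h4
      rw [cons_append, e2] at h2
      simp only [cons_append, e2] at h3
      rcases le_total w.length u.length with h5 | h5
      · exact key 0 1 h01 u w h2 (fun z hz => (h3 z).1 hz) h5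
      · obtain ⟨l, hl⟩ := key 1 0 h01.symm w u (Cy.rot (l1 := P.t 0 :: u) h2)
          (fun z hz => (h3 z).1 (perm_append_comm.mem_iff.1 hz)) h5
        exact ⟨_, hl.rev⟩
    have h2 : P.s 0 ≠ P.s 1 := fun h => P.disj 0 1 h01 _ (P.p 0).start_mem_support
      (Eq.mpr (congrArg (fun z => z ∈ (P.p 1).support) h) (P.p 1).start_mem_support)
    obtain ⟨l, hl⟩ := h1
    have h3 : P.s 0 = x ∨ P.s 0 = y := P.s_mem 0
    have h4 : P.s 1 = x ∨ P.s 1 = y := P.s_mem 1
    generalize P.s 0 = a at *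
    generalize P.s 1 = a' at *
    rcases h3 with h3 | h3 <;> rcases h4 with h4 | h4
    · exact absurd (h3.trans h4.symm) h2
    · rw [h3, h4] at hl
      exact ⟨l, hl⟩
    · rw [h3, h4] at hl
      exact ⟨_, hl.rev⟩
    · exact absurd (h3.trans h4.symm) h2
  · exfalso
    have h1 : ((A ∪ {x, y}).filter (· ∈ T)).card ≤ 1 := by
      have : (((A ∪ {x, y}).filter (· ∈ T) : Finset V) : Set V) ⊆ T := fun z hz =>
        (Finset.mem_filter.1 hz).2
      have := Set.ncard_le_ncard this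
      rw [Set.ncard_coe_finset] at this
      omega
    have h2 : ({x, y} : Finset V) ⊆ S := by simp [Finset.insert_subset_iff, hx, hy]
    have h3 := Finset.card_le_card h2
    have h4 := Finset.card_union_le (S \ {x, y}) ((A ∪ {x, y}).filter (· ∈ T))
    rw [Finset.card_sdiff_of_subset h2] at h4
    rw [Finset.card_pair hxy] at h3 h4
    obtain ⟨c, hc, hcT⟩ : ∃ c ∈ C.toFinset, c ∉ (A ∪ {x, y}).filter (· ∈ T) :=
      Finset.exists_mem_notMem_of_card_lt_card (by
        rw [toFinset_card_of_nodup hC.nd]; have := hC.len; omega)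
    rw [mem_toFinset] at hc
    have hcA := hC.mem c hc
    refine hS (S \ {x, y} ∪ (A ∪ {x, y}).filter (· ∈ T)) (by omega) ⟨c, b, fun h => ?_, fun h => ?_,
      fun w => ?_⟩
    · exact (Finset.mem_union.1 h).elim
        (fun h => Finset.disjoint_left.1 hAS hcA (Finset.mem_sdiff.1 h).1) hcT
    · rcases Finset.mem_union.1 h with h | h
      · exact hbS (Finset.mem_sdiff.1 h).1
      · exact (Finset.mem_union.1 (Finset.mem_filter.1 h).1).elim hb fun h => hbS (h2 h)
    by_contra hw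
    push Not at hw
    obtain ⟨a, z, h5, h6, h7, h8⟩ := RIn.exists_exit (A := (A : Set V))
      (S := {z | z ∉ S \ {x, y} ∪ (A ∪ {x, y}).filter (· ∈ T)}) ⟨w, hw⟩ hcA hb
    have h9 : ∀ z, z ∉ S \ {x, y} ∪ (A ∪ {x, y}).filter (· ∈ T) → z ∈ A ∪ {x, y} → z ∈ Tᶜ :=
      fun z h h' h'' => h (Finset.mem_union_right _ (Finset.mem_filter.2 ⟨h', h''⟩))
    have h10 : z ∈ ({x, y} : Finset V) := by
      by_contra h
      exact h7 (Finset.mem_union_left _ (Finset.mem_sdiff.2
        ⟨(hA a h5.right_mem.2 z h6).resolve_left h8, h⟩))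
    refine hsep z (by simpa using h10) c hc (RIn.symm (RIn.tail (h5.mono'
      (fun v hv => h9 v hv.1 (Finset.mem_union_left _ hv.2)) fun u v hu hv h =>
        ⟨h, Finset.mem_union_left _ hu.2, Finset.mem_union_left _ hv.2⟩)
      ⟨h6, Finset.mem_union_left _ h5.right_mem.2, Finset.mem_union_right _ h10⟩
      (h9 z h7 (Finset.mem_union_right _ h10))))

theorem deg_ge [Fintype V] {v : V} {A S : Finset V} (h : ∀ z, G.Adj v z → z ∈ A ∨ z ∈ S) :
    deg G Finset.univ v ≤ deg G A v + S.card :=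
  (Finset.card_le_card fun z hz => Finset.mem_union.2 ((h z (Finset.mem_filter.1 hz).2).imp_left
    fun h' => Finset.mem_filter.2 ⟨h', (Finset.mem_filter.1 hz).2⟩)).trans (Finset.card_union_le _ _)

theorem side [Fintype V] {A S : Finset V} (hA : ∀ v ∈ A, ∀ z, G.Adj v z → z ∈ A ∨ z ∈ S)
    (hAS : Disjoint A S) {a b : V} (ha : a ∈ A) (hb : b ∉ A) (hbS : b ∉ S) (hx : x ∈ S)
    (hy : y ∈ S) (hxy : x ≠ y) (hS : ∀ T : Finset V, T.card < S.card → ¬ Sepr G T) {d m : ℕ}
    (hd : 1 ≤ d) (hm : 1 ≤ m) (hs : S.card ≤ m + 2)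
    (hD : ∀ v, (2 * d + 1) * m + d + m + 1 ≤ deg G Finset.univ v) :
    ∃ l, Pa G (d + 2) (A ∪ {x, y}) x y l ∧ Pack G (2 * d + 1) (A \ l.toFinset) m := by
  have h0 : 2 * d + 1 ≤ (2 * d + 1) * m := Nat.le_mul_of_pos_right _ hm
  obtain ⟨C, hC⟩ := exists_cy (G := G) (r := 2 * d + 1) (X := A) (e := b) (by omega)
    ⟨a, ha, fun h => hb (h ▸ ha)⟩ fun v hv _ => by
      have := deg_ge (hA v hv)
      have := hD v
      omega
  obtain ⟨l, hl, hmin⟩ := exists_min (Pa G (d + 2) (A ∪ {x, y}) x y) List.length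
    (long_path hA hAS hb hbS hx hy hxy hS hC (by omega) (by omega))
  have h2 : ({x, y} : Finset V) ⊆ S := by simp [Finset.insert_subset_iff, hx, hy]
  have h3 := Finset.card_le_card h2
  rw [Finset.card_pair hxy] at h3
  have h1 : ∀ v ∈ A, (2 * d + 1) * m + d + 1 ≤ deg G (A \ l.toFinset) v + cnt G v l := fun v hv => by
    have h4 : deg G Finset.univ v ≤ deg G (A ∪ {x, y}) v + (S \ {x, y}).card := deg_ge fun z hz => by
      have := hA v hv z hz
      simp only [Finset.mem_union, Finset.mem_sdiff]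
      tauto
    have h5 := deg_le (G := G) (A ∪ {x, y}) v l
    have h6 : (A ∪ {x, y}) \ l.toFinset = A \ l.toFinset := by
      ext z
      have h7 := mem_of_mem_head? hl.hd
      have h8 := mem_of_mem_getLast? hl.la
      simp only [Finset.mem_sdiff, Finset.mem_union, Finset.mem_insert, Finset.mem_singleton,
        mem_toFinset]
      exact ⟨fun h => ⟨h.1.resolve_right fun h9 => h.2 (h9.elim (· ▸ h7) (· ▸ h8)), h.2⟩,
        fun h => ⟨Or.inl h.1, h.2⟩⟩
    have h7 := hD v
    rw [Finset.card_sdiff_of_subset h2, Finset.card_pair hxy] at h4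
    rw [h6] at h5
    omega
  refine ⟨l, hl, greedy (e := b) (by omega) m _ ?_ fun v hv _ => ?_⟩
  · have h4 := hl.len
    obtain ⟨t, rfl⟩ : ∃ t, l = x :: t := head?_eq_some_iff.1 hl.hd
    obtain _ | ⟨u, _ | ⟨u', t⟩⟩ := t
    · simp at h4
    · simp at h4; omega
    have h5 : u ∈ A := by
      have h6 : y ∈ u' :: t := mem_of_mem_getLast? (by simpa using hl.la)
      have h7 := hl.nd
      rw [nodup_cons, nodup_cons] at h7
      refine (Finset.mem_union.1 (hl.mem u (by simp))).resolve_right fun h => ?_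
      rcases Finset.mem_insert.1 h with h | h
      · exact h7.1 (h ▸ mem_cons_self)
      · exact h7.2.1 (Finset.mem_singleton.1 h ▸ h6)
    have h6 := path_snd (by omega) hl hmin
    have h7 := h1 u h5
    obtain ⟨w, hw⟩ := Finset.card_pos.1
      (show 0 < deg G (A \ (x :: u :: u' :: t).toFinset) u by omega)
    have h8 := (Finset.mem_filter.1 hw).1
    exact ⟨w, h8, fun h => hb (h ▸ (Finset.mem_sdiff.1 h8).1)⟩
  · rw [Finset.mem_sdiff, mem_toFinset] at hv
    have := path_out (by omega) hl hmin (Finset.mem_union_left _ hv.1) hv.2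
    have := h1 v hv.1
    omega

end Pool.Agent.Lib.MP_038631_co
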